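import Pool.Agent.T2H15.DW.Concrete

/-!
# The Delta-Wye parameters are not determined by the intersection numbers

The relations of the first scheme are the orbits of `x ↦ -x` on the group `X = (ZMod 4)²`
(`(x, y) ∈ R_i` if `x - y` is in the orbit number `i`), those of the second scheme are the orbits of
`(i, v) ↦ (i + v, v)` on the group `X' = (ZMod 2)² × (ZMod 2)²`. Identify the two sets by
`v + 2 i ↔ (i, v)` (`v, i ∈ {0, 1}²`). Then the orbits are the same sets, the intersection numbers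
are equal, both schemes (nine classes, sixteen points) are exactly triply regular, but the
Delta-Wye parameters are different. So the answer to Q1 is negative.
-/

namespace Pool.Agent.Results.MP_711634_co.NotDetermined

open Finset Matrix Pool.Agent.T2H15.DW

/-- The statement of Q1: two exactly triply regular symmetric association schemes with the same
intersection numbers have, with matched idempotents, the same Delta-Wye parameters. -/
def Question : Prop :=
  ∀ (d : ℕ) (X X' : Type) [Fintype X] [DecidableEq X] [Fintype X'] [DecidableEq X']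
    (S : SymScheme d X) (S' : SymScheme d X'),
    S.ExactlyTriplyRegular → S'.ExactlyTriplyRegular → S.p = S'.p →
    ∀ (E : Fin (d + 1) → Matrix X X ℝ) (E' : Fin (d + 1) → Matrix X' X' ℝ),
      S.IsIdempotents E → S'.IsIdempotents E' → Matched S S' E E' →
      ∀ q : Fin (d + 1) → Fin (d + 1) → Fin (d + 1) → ℝ, IsKrein E q → IsKrein E' q →
      ∀ σ σ' : Fin (d + 1) → Fin (d + 1) → Fin (d + 1) → Fin (d + 1) → Fin (d + 1) →
        Fin (d + 1) → ℂ, S.IsDeltaWye E q σ → S'.IsDeltaWye E' q σ' →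
        ∀ i j k r s t, 0 < S.p i j k → 0 < q r s t → σ i j k r s t = σ' i j k r s t

theorem cl_a1 : D1.cl (0, 1) = 6 := by decide
theorem cl_b1 : D1.cl (1, 0) = 4 := by decide
theorem cl_s1 : D1.cl ((0, 1) + (1, 0)) = 8 := by decide
theorem cl_a2 : D2.cl ((0, 0), (0, 1)) = 6 := by decide
theorem cl_b2 : D2.cl ((0, 0), (1, 0)) = 4 := by decide
theorem cl_s2 : D2.cl (((0, 0), (0, 1)) + ((0, 0), (1, 0))) = 8 := by decide
theorem val1 : D1.sigmaZ 6 8 4 (0, 1) (1, 0) = 2 := by decide +kernel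
theorem val2 : D2.sigmaZ 6 8 4 ((0, 0), (0, 1)) ((0, 0), (1, 0)) = -2 := by decide +kernel
theorem pos1 : 0 < D1.scheme.p 6 8 4 := by decide +kernel
theorem pos1' : 0 < D1.scheme.p 6 4 8 := by decide +kernel

/-- **Main theorem.** There are two symmetric association schemes with nine classes on sixteen
points which are exactly triply regular and have the same intersection numbers, such that (for
matched primitive idempotents `E`, `E'`, and with the Krein parameters `q`) the Delta-Wye
parameters `σ`, `σ'` exist, are unique, and are different. Hence the answer to Q1 is negative. -/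
theorem result :
    ¬ Question ∧
    ∃ (S : SymScheme 9 (ZMod 4 × ZMod 4))
      (S' : SymScheme 9 ((ZMod 2 × ZMod 2) × (ZMod 2 × ZMod 2)))
      (E : Fin 10 → Matrix (ZMod 4 × ZMod 4) (ZMod 4 × ZMod 4) ℝ)
      (E' : Fin 10 → Matrix ((ZMod 2 × ZMod 2) × (ZMod 2 × ZMod 2))
        ((ZMod 2 × ZMod 2) × (ZMod 2 × ZMod 2)) ℝ)
      (q : Fin 10 → Fin 10 → Fin 10 → ℝ)
      (σ σ' : Fin 10 → Fin 10 → Fin 10 → Fin 10 → Fin 10 → Fin 10 → ℂ),
      S.ExactlyTriplyRegular ∧ S'.ExactlyTriplyRegular ∧ S.p = S'.p ∧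
      S.IsIdempotents E ∧ S'.IsIdempotents E' ∧ Matched S S' E E' ∧ IsKrein E q ∧ IsKrein E' q ∧
      S.IsDeltaWye E q σ ∧ S'.IsDeltaWye E' q σ' ∧
      (∀ σ₁, S.IsDeltaWye E q σ₁ → ∀ i j k r s t, 0 < S.p i j k → 0 < q r s t →
        σ₁ i j k r s t = σ i j k r s t) ∧
      (∀ σ₁, S'.IsDeltaWye E' q σ₁ → ∀ i j k r s t, 0 < S'.p i j k → 0 < q r s t →
        σ₁ i j k r s t = σ' i j k r s t) ∧
      ∃ i j k r s t, 0 < S.p i j k ∧ 0 < q r s t ∧ σ i j k r s t ≠ σ' i j k r s t := by
  have hq : (fun r s t => (D1.scheme.p r s t : ℝ)) = fun r s t => (D2.scheme.p r s t : ℝ) := by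
    rw [p_eq]
  have hdw2 : D2.scheme.IsDeltaWye D2.E (fun r s t => (D1.scheme.p r s t : ℝ)) D2.sigma := by
    rw [hq]
    exact D2.isDeltaWye
  have hne : D1.sigma 6 8 4 6 4 8 ≠ D2.sigma 6 8 4 6 4 8 := by
    intro h
    have h1 := D1.deltaWye_re D1.isDeltaWye pos1 (0, 1) (1, 0)
    have h2 := D2.deltaWye_re D2.isDeltaWye (i := 6) (j := 8) (k := 4)
      (by rw [← p_eq]; exact pos1) ((0, 0), (0, 1)) ((0, 0), (1, 0))
    rw [cl_a1, cl_b1, cl_s1, val1] at h1
    rw [cl_a2, cl_b2, cl_s2, val2, ← h, h1] at h2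
    norm_num at h2
  have hK2 : IsKrein D2.E (fun r s t => (D1.scheme.p r s t : ℝ)) := by
    rw [hq]
    exact D2.isKrein
  constructor
  · intro hQ
    exact hne (hQ 9 _ _ D1.scheme D2.scheme D1.exactlyTriplyRegular D2.exactlyTriplyRegular p_eq
      D1.E D2.E D1.isIdempotents D2.isIdempotents matched _ D1.isKrein hK2 D1.sigma D2.sigma
      D1.isDeltaWye hdw2 6 8 4 6 4 8 pos1 (Nat.cast_pos.2 pos1'))
  · refine ⟨D1.scheme, D2.scheme, D1.E, D2.E, fun r s t => (D1.scheme.p r s t : ℝ), D1.sigma,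
      D2.sigma, D1.exactlyTriplyRegular, D2.exactlyTriplyRegular, p_eq, D1.isIdempotents,
      D2.isIdempotents, matched, D1.isKrein, hK2, D1.isDeltaWye, hdw2, ?_, ?_,
      6, 8, 4, 6, 4, 8, pos1, Nat.cast_pos.2 pos1', hne⟩
    · intro σ₁ h i j k r s t hp hq'
      exact D1.sigma_unique h hp (Nat.cast_pos.1 hq')
    · intro σ₁ h i j k r s t hp hq'
      rw [hq] at h
      refine D2.sigma_unique h hp ?_
      rw [← p_eq]
      exact Nat.cast_pos.1 hq'

end Pool.Agent.Results.MP_711634_co.NotDetermined
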